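import Pool.Agent.SOR.Stmts1

/-!
# Squad SOR, row LFT (helper69): exact cocycles of the free group
-/

open scoped BigOperators

noncomputable section

namespace Pool.Agent.SOR.H69

open Pool.Agent.SOR

/-- induction on words -/
theorem fr_ind {C : Fr → Prop} (h1 : C 1) (hA : C lA) (hB : C lB)
    (hi : ∀ g, C g → C g⁻¹) (hm : ∀ g h, C g → C h → C (g * h)) (w : Fr) : C w := by
  refine FreeGroup.induction_on w h1 ?_ (fun t ht => hi _ ht) hm
  intro t
  cases t
  · exact hA
  · exact hB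

/-- the permutation `(y, s) ↦ (π y, s + f y)` -/
def sh {Y : Type} (π : Equiv.Perm Y) (f : Y → ℚ) : Equiv.Perm (Y × ℚ) where
  toFun z := (π z.1, z.2 + f z.1)
  invFun z := (π.symm z.1, z.2 - f (π.symm z.1))
  left_inv z := by simp
  right_inv z := by simp

/-- the homomorphism -/
def shH {Y : Type} (i : Fr →* Equiv.Perm Y) (fA fB : Y → ℚ) : Fr →* Equiv.Perm (Y × ℚ) :=
  FreeGroup.lift (fun t => if t then sh (i lB) fB else sh (i lA) fA)

theorem shH_A {Y : Type} (i : Fr →* Equiv.Perm Y) (fA fB : Y → ℚ) :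
    shH i fA fB lA = sh (i lA) fA := by simp [shH, lA]

theorem shH_B {Y : Type} (i : Fr →* Equiv.Perm Y) (fA fB : Y → ℚ) :
    shH i fA fB lB = sh (i lB) fB := by simp [shH, lB]

theorem shH_apply {Y : Type} (i : Fr →* Equiv.Perm Y) (fA fB : Y → ℚ) (w : Fr) :
    ∀ (y : Y) (s : ℚ), shH i fA fB w (y, s) = (i w y, s + (shH i fA fB w (y, 0)).2) := by
  refine fr_ind (C := fun w => ∀ (y : Y) (s : ℚ),
    shH i fA fB w (y, s) = (i w y, s + (shH i fA fB w (y, 0)).2)) ?_ ?_ ?_ ?_ ?_ w
  · intro y s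
    simp
  · intro y s
    rw [shH_A]
    simp [sh]
  · intro y s
    rw [shH_B]
    simp [sh]
  · intro g hg y s
    have h1 : ∀ s : ℚ, shH i fA fB g⁻¹ (y, s) =
        (i g⁻¹ y, s - (shH i fA fB g (i g⁻¹ y, 0)).2) := by
      intro s
      rw [map_inv, Equiv.Perm.inv_eq_iff_eq, hg]
      simp
    rw [h1 s, h1 0]
    ext
    · rfl
    · simp only
      ring
  · intro g h hg hh y s
    have h1 : ∀ s : ℚ, shH i fA fB (g * h) (y, s) =
        (i (g * h) y, s + (shH i fA fB h (y, 0)).2 + (shH i fA fB g (i h y, 0)).2) := by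
      intro s
      rw [map_mul, Equiv.Perm.mul_apply, hh y s, hg, map_mul, Equiv.Perm.mul_apply]
    rw [h1 s, h1 0]
    ext
    · rfl
    · simp only
      ring

theorem cx_one {H Y : Type} [Group H] {i : H →* Equiv.Perm Y} {u : H → Y → ℚ} (hu : Cx i u)
    (y : Y) : u 1 y = 0 := by
  have h := hu 1 1 y
  rw [mul_one, map_one, Equiv.Perm.one_apply] at h
  linarith

theorem cx_inv {H Y : Type} [Group H] {i : H →* Equiv.Perm Y} {u : H → Y → ℚ} (hu : Cx i u)
    (g : H) (y : Y) : u g⁻¹ y = -u g (i g⁻¹ y) := by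
  have h := hu g g⁻¹ y
  rw [mul_inv_cancel, cx_one hu] at h
  linarith

theorem lft : LftStmt := by
  intro Y i
  refine ⟨?_, ?_, ?_⟩
  · intro fA fB
    refine ⟨fun w y => (shH i fA fB w (y, 0)).2, ?_, ?_, ?_⟩
    · intro g h y
      show (shH i fA fB (g * h) (y, 0)).2 = _
      rw [map_mul, Equiv.Perm.mul_apply, shH_apply i fA fB h y 0, shH_apply]
      simp only
      ring
    · intro y
      show (shH i fA fB lA (y, 0)).2 = _
      rw [shH_A]
      simp [sh]
    · intro y
      show (shH i fA fB lB (y, 0)).2 = _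
      rw [shH_B]
      simp [sh]
  · intro u v hu hv hA hB
    funext w
    refine fr_ind (C := fun w => u w = v w) ?_ ?_ ?_ ?_ ?_ w
    · funext y
      rw [cx_one hu, cx_one hv]
    · funext y
      exact hA y
    · funext y
      exact hB y
    · intro g hg
      funext y
      rw [cx_inv hu, cx_inv hv, hg]
    · intro g h hg hh
      funext y
      rw [hu, hv, hg, hh]
  · intro R u v hu hv hA hB w
    refine fr_ind (C := fun w => ∀ y, u w y - v w y ∈ R) ?_ hA hB ?_ ?_ w
    · intro y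
      have h1 := hu 1 1 y
      have h2 := hv 1 1 y
      rw [mul_one, map_one, Equiv.Perm.one_apply] at h1 h2
      have h3 := R.sub_mem h2 h1
      have h4 : v 1 y - v 1 y - v 1 y - (u 1 y - u 1 y - u 1 y) = u 1 y - v 1 y := by ring
      rwa [h4] at h3
    · intro g hg y
      have h1 := hu g g⁻¹ y
      have h2 := hv g g⁻¹ y
      have h3 := hg (i g⁻¹ y)
      have h5 := hu 1 1 y
      have h6 := hv 1 1 y
      rw [mul_one, map_one, Equiv.Perm.one_apply] at h5 h6
      rw [mul_inv_cancel] at h1 h2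
      have h7 := R.sub_mem (R.sub_mem (R.sub_mem h2 h1) h3) (R.sub_mem h5 h6)
      have h8 : v 1 y - v g (i g⁻¹ y) - v g⁻¹ y - (u 1 y - u g (i g⁻¹ y) - u g⁻¹ y) -
          (u g (i g⁻¹ y) - v g (i g⁻¹ y)) - (u 1 y - u 1 y - u 1 y - (v 1 y - v 1 y - v 1 y)) =
          u g⁻¹ y - v g⁻¹ y := by ring
      rwa [h8] at h7
    · intro g h hg hh y
      have h1 := hu g h y
      have h2 := hv g h y
      have h7 := R.add_mem (R.add_mem (R.sub_mem h1 h2) (hg (i h y))) (hh y)
      have h8 : u (g * h) y - u g (i h y) - u h y - (v (g * h) y - v g (i h y) - v h y) +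
          (u g (i h y) - v g (i h y)) + (u h y - v h y) = u (g * h) y - v (g * h) y := by ring
      rwa [h8] at h7

end Pool.Agent.SOR.H69
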