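import Pool.Agent.SOR.Stmts1

/-!
# Squad SOR, row THX (helper69): primitives of cup products
-/

open scoped BigOperators

noncomputable section

namespace Pool.Agent.SOR.H69.T

open Pool.Agent.SOR

/-- induction on words -/
theorem fr_ind {C : Fr → Prop} (h1 : C 1) (hA : C lA) (hB : C lB)
    (hi : ∀ g, C g → C g⁻¹) (hm : ∀ g h, C g → C h → C (g * h)) (w : Fr) : C w := by
  refine FreeGroup.induction_on w h1 ?_ (fun t ht => hi _ ht) hm
  intro t
  cases t
  · exact hA
  · exact hB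

theorem cx_one {H Y : Type} [Group H] {i : H →* Equiv.Perm Y} {u : H → Y → ℚ} (hu : Cx i u)
    (y : Y) : u 1 y = 0 := by
  have h := hu 1 1 y
  rw [mul_one, map_one, Equiv.Perm.one_apply] at h
  linarith

theorem cx_inv {H Y : Type} [Group H] {i : H →* Equiv.Perm Y} {u : H → Y → ℚ} (hu : Cx i u)
    (g : H) (y : Y) : u g⁻¹ y = -u g (i g⁻¹ y) := by
  have h := hu g g⁻¹ y
  rw [mul_inv_cancel, cx_one hu] at h
  linarith

/-- the permutation `(y, b, c) ↦ (π y, b + q y, c + p y * b)` -/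
def hs {Y : Type} (π : Equiv.Perm Y) (p q : Y → ℚ) : Equiv.Perm (Y × ℚ × ℚ) where
  toFun z := (π z.1, z.2.1 + q z.1, z.2.2 + p z.1 * z.2.1)
  invFun z := (π.symm z.1, z.2.1 - q (π.symm z.1),
    z.2.2 - p (π.symm z.1) * (z.2.1 - q (π.symm z.1)))
  left_inv z := by simp
  right_inv z := by simp

/-- the homomorphism -/
def hsH {Y : Type} (i : Fr →* Equiv.Perm Y) (u v : Fr → Y → ℚ) : Fr →* Equiv.Perm (Y × ℚ × ℚ) :=
  FreeGroup.lift (fun t => if t then hs (i lB) (u lB) (v lB) else hs (i lA) (u lA) (v lA))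

theorem hsH_A {Y : Type} (i : Fr →* Equiv.Perm Y) (u v : Fr → Y → ℚ) :
    hsH i u v lA = hs (i lA) (u lA) (v lA) := by simp [hsH, lA]

theorem hsH_B {Y : Type} (i : Fr →* Equiv.Perm Y) (u v : Fr → Y → ℚ) :
    hsH i u v lB = hs (i lB) (u lB) (v lB) := by simp [hsH, lB]

theorem hsH_apply {Y : Type} (i : Fr →* Equiv.Perm Y) (u v : Fr → Y → ℚ) (hu : Cx i u)
    (hv : Cx i v) (w : Fr) : ∀ (y : Y) (b c : ℚ), hsH i u v w (y, b, c) =
      (i w y, b + v w y, c + (hsH i u v w (y, 0, 0)).2.2 + u w y * b) := by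
  refine fr_ind (C := fun w => ∀ (y : Y) (b c : ℚ), hsH i u v w (y, b, c) =
      (i w y, b + v w y, c + (hsH i u v w (y, 0, 0)).2.2 + u w y * b)) ?_ ?_ ?_ ?_ ?_ w
  · intro y b c
    simp [cx_one hu, cx_one hv]
  · intro y b c
    rw [hsH_A]
    simp [hs]
  · intro y b c
    rw [hsH_B]
    simp [hs]
  · intro g hg y b c
    have h1 : ∀ b c : ℚ, hsH i u v g⁻¹ (y, b, c) =
        (i g⁻¹ y, b - v g (i g⁻¹ y), c - (hsH i u v g (i g⁻¹ y, 0, 0)).2.2 -
          u g (i g⁻¹ y) * (b - v g (i g⁻¹ y))) := by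
      intro b c
      rw [map_inv, Equiv.Perm.inv_eq_iff_eq, hg]
      ext
      · simp
      · simp
      · simp only
        ring
    rw [h1 b c, h1 0 0, cx_inv hu, cx_inv hv]
    ext
    · rfl
    · simp only
      ring
    · simp only
      ring
  · intro g h hg hh y b c
    have h1 : ∀ b c : ℚ, hsH i u v (g * h) (y, b, c) =
        (i (g * h) y, b + v (g * h) y, c + (hsH i u v h (y, 0, 0)).2.2 + u h y * b +
          (hsH i u v g (i h y, 0, 0)).2.2 + u g (i h y) * (b + v h y)) := by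
      intro b c
      rw [map_mul, Equiv.Perm.mul_apply, hh y b c, hg, map_mul, Equiv.Perm.mul_apply, hv g h y]
      ext
      · rfl
      · simp only
        ring
      · rfl
    rw [h1 b c, h1 0 0, hu g h y]
    ext
    · rfl
    · rfl
    · simp only
      ring

theorem thx : ThxStmt := by
  intro Y _ i u v hu hv
  refine ⟨?_, ?_, ?_⟩
  · refine ⟨fun w y => (hsH i u v w (y, 0, 0)).2.2, ?_, ?_, ?_⟩
    · intro g h y
      show (hsH i u v (g * h) (y, 0, 0)).2.2 = _
      rw [map_mul, Equiv.Perm.mul_apply, hsH_apply i u v hu hv h y 0 0,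
        hsH_apply i u v hu hv g]
      simp only
      ring
    · intro y
      show (hsH i u v lA (y, 0, 0)).2.2 = _
      rw [hsH_A]
      simp [hs]
    · intro y
      show (hsH i u v lB (y, 0, 0)).2.2 = _
      rw [hsH_B]
      simp [hs]
  · intro θ θ' h1 h2
    have hc : Cx i (fun g y => θ g y - θ' g y) := by
      intro g h y
      show θ (g * h) y - θ' (g * h) y = θ g (i h y) - θ' g (i h y) + (θ h y - θ' h y)
      rw [h1, h2]
      ring
    have hmul : ∀ g h, ∑ y, (θ (g * h) y - θ' (g * h) y) =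
        ∑ y, (θ g y - θ' g y) + ∑ y, (θ h y - θ' h y) := by
      intro g h
      rw [← Equiv.sum_comp (i h) (fun y => θ g y - θ' g y), ← Finset.sum_add_distrib]
      exact Finset.sum_congr rfl (fun y _ => hc g h y)
    have h1' : ∑ y, (θ 1 y - θ' 1 y) = 0 :=
      Finset.sum_eq_zero (fun y _ => cx_one hc y)
    have hinv : ∀ g, ∑ y, (θ g⁻¹ y - θ' g⁻¹ y) = -∑ y, (θ g y - θ' g y) := by
      intro g
      have h3 := hmul g g⁻¹
      rw [mul_inv_cancel, h1'] at h3
      linarith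
    have h4 : ∑ y, (θ lC y - θ' lC y) = 0 := by
      show ∑ y, (θ (lB⁻¹ * lA⁻¹ * lB * lA) y - θ' (lB⁻¹ * lA⁻¹ * lB * lA) y) = 0
      rw [hmul, hmul, hmul, hinv, hinv]
      ring
    rw [Finset.sum_sub_distrib] at h4
    linarith
  · intro R hRu hRv θ hθ hA hB w
    have h1 : ∀ y, θ 1 y ∈ R := by
      intro y
      have h2 := hθ 1 1 y
      rw [mul_one, map_one, Equiv.Perm.one_apply] at h2
      have h3 : θ 1 y = -(u 1 y * v 1 y) := by linarith
      rw [h3]
      exact R.neg_mem (R.mul_mem (hRu _ _) (hRv _ _))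
    refine fr_ind (C := fun w => ∀ y, θ w y ∈ R) h1 hA hB ?_ ?_ w
    · intro g hg y
      have h2 := hθ g g⁻¹ y
      rw [mul_inv_cancel] at h2
      have h3 : θ g⁻¹ y = θ 1 y - θ g (i g⁻¹ y) - u g (i g⁻¹ y) * v g⁻¹ y := by linarith
      rw [h3]
      exact R.sub_mem (R.sub_mem (h1 y) (hg _)) (R.mul_mem (hRu _ _) (hRv _ _))
    · intro g h hg hh y
      rw [hθ g h y]
      exact R.add_mem (R.add_mem (hg _) (hh _)) (R.mul_mem (hRu _ _) (hRv _ _))

end Pool.Agent.SOR.H69.T
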